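import Mathlib

/-!
# Slowly growing quasi-rigid operators on `c_0` and left multiplication orbits
-/

set_option autoImplicit false

namespace Pool.Agent.KS6_91.LM

open Set Filter Topology Complex
open scoped ZeroAtInfty Real

section Defs

variable {𝕜 X : Type} [NontriviallyNormedField 𝕜] [NormedAddCommGroup X] [NormedSpace 𝕜 X]

/-- `Ω(T)`: the bounded operators `h` such that, along some strictly increasing sequence `ω` of
positive integers, `T ^ ω n x → h x` for every `x` in a dense set. -/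
def Omega (T : X →L[𝕜] X) : Set (X →L[𝕜] X) :=
  {h | ∃ ω : ℕ → ℕ, StrictMono ω ∧ (∀ n, 0 < ω n) ∧ ∃ D : Set X, Dense D ∧
    ∀ x ∈ D, Tendsto (fun n => (T ^ ω n) x) atTop (𝓝 (h x))}

/-- `T` is quasi-rigid: along some strictly increasing sequence `θ` of positive integers one has
`T ^ θ n x → x` for every `x` in a dense set. -/
def QuasiRigid (T : X →L[𝕜] X) : Prop :=
  ∃ θ : ℕ → ℕ, StrictMono θ ∧ (∀ n, 0 < θ n) ∧ ∃ D : Set X, Dense D ∧
    ∀ x ∈ D, Tendsto (fun n => (T ^ θ n) x) atTop (𝓝 x)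

/-- The closure of a set of bounded operators in the strong operator topology, the topology of the
pointwise convergence. -/
def SOTClosure (A : Set (X →L[𝕜] X)) : Set (X →L[𝕜] X) :=
  {h | (h : X → X) ∈ closure ((fun S : X →L[𝕜] X => (S : X → X)) '' A)}

/-- For operators with bounded powers the answer is yes, with `Λ` the identity. -/
theorem covered {T : X →L[𝕜] X} (hT : ∃ C, ∀ n, ‖T ^ n‖ ≤ C) :
    Omega T ⊆ SOTClosure {S | ∃ n : ℕ, 1 ≤ n ∧ S = T ^ n * 1} := by
  obtain ⟨C, hC⟩ := hT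
  rintro h ⟨ω, -, hω, D, hD, hlim⟩
  have hC0 : 0 ≤ C := (norm_nonneg _).trans (hC 0)
  refine mem_closure_of_tendsto (f := fun n => ((T ^ ω n : X →L[𝕜] X) : X → X)) (b := atTop)
    (tendsto_pi_nhds.mpr fun x => ?_)
    (Eventually.of_forall fun n => ⟨T ^ ω n, ⟨ω n, hω n, by rw [mul_one]⟩, rfl⟩)
  rw [Metric.tendsto_atTop]
  intro ε hε
  have hδ : 0 < ε / (2 * (C + ‖h‖ + 1)) := by
    have := norm_nonneg h
    positivity
  obtain ⟨y, hy, hxy⟩ := Metric.mem_closure_iff.mp (hD x) _ hδ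
  obtain ⟨N, hN⟩ := (Metric.tendsto_atTop.mp (hlim y hy)) (ε / 2) (half_pos hε)
  refine ⟨N, fun n hn => ?_⟩
  have h1 := hN n hn
  rw [dist_eq_norm] at h1 hxy ⊢
  have h2 : (T ^ ω n) x - h x = (T ^ ω n) (x - y) + ((T ^ ω n) y - h y) - h (x - y) := by
    rw [map_sub, map_sub]
    abel
  have h3 : ‖(T ^ ω n) (x - y)‖ ≤ C * ‖x - y‖ :=
    ((T ^ ω n).le_opNorm _).trans (mul_le_mul_of_nonneg_right (hC _) (norm_nonneg _))
  have h4 : ‖h (x - y)‖ ≤ ‖h‖ * ‖x - y‖ := h.le_opNorm _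
  have h5 : (C + ‖h‖) * ‖x - y‖ ≤ ε / 2 := by
    have h6 : (C + ‖h‖ + 1) * ‖x - y‖ ≤ ε / 2 := by
      have h7 : (C + ‖h‖ + 1) * ‖x - y‖ ≤ (C + ‖h‖ + 1) * (ε / (2 * (C + ‖h‖ + 1))) :=
        mul_le_mul_of_nonneg_left hxy.le (by have := norm_nonneg h; positivity)
      refine h7.trans (le_of_eq ?_)
      have : C + ‖h‖ + 1 ≠ 0 := by
        have := norm_nonneg h
        positivity
      field_simp
    nlinarith [norm_nonneg (x - y)]
  calc ‖(T ^ ω n) x - h x‖ ≤ ‖(T ^ ω n) (x - y)‖ + ‖(T ^ ω n) y - h y‖ + ‖h (x - y)‖ := by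
        rw [h2]
        exact (norm_sub_le _ _).trans (add_le_add_left (norm_add_le _ _) _)
    _ < ε := by linarith

end Defs

/-- `exp (2 π i j / 2 ^ k)` -/
noncomputable def E (j : ℤ) (k : ℕ) : ℂ := exp (I * ((2 * π * j / 2 ^ k : ℝ) : ℂ))

lemma E_add (i j : ℤ) (k : ℕ) : E (i + j) k = E i k * E j k := by
  rw [E, E, E, ← exp_add]; congr 1; push_cast; ring

lemma E_norm (j : ℤ) (k : ℕ) : ‖E j k‖ = 1 := norm_exp_I_mul_ofReal _

lemma E_zero (k : ℕ) : E 0 k = 1 := by simp [E]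

lemma E_sub (j : ℤ) (k : ℕ) : ‖E j k - 1‖ ≤ 2 * π * |(j : ℝ)| / 2 ^ k := by
  have := Real.norm_exp_I_mul_ofReal_sub_one_le (x := 2 * π * j / 2 ^ k)
  rw [Real.norm_eq_abs, abs_div, abs_mul, abs_of_pos Real.two_pi_pos,
    abs_of_pos (by positivity : (0 : ℝ) < 2 ^ k)] at this
  exact this

lemma E_sub' (j : ℤ) (k : ℕ) : ‖E j k - 1‖ ≤ 2 := by
  refine (norm_sub_le _ _).trans ?_
  rw [E_norm, norm_one]
  norm_num

lemma E_pow {k n : ℕ} (h : k ≤ n) : E (2 ^ n) k = 1 := by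
  obtain ⟨m, rfl⟩ := Nat.exists_eq_add_of_le h
  rw [E, ← exp_int_mul_two_pi_mul_I (2 ^ m)]
  congr 1; push_cast; field_simp; ring

lemma E_far {j : ℕ} (hj : j ≠ 0) : 7 / 5 ≤ ‖E j (Nat.log 2 j + 2) - 1‖ := by
  have h1 : ((2 ^ Nat.log 2 j : ℕ) : ℝ) ≤ j := by exact_mod_cast Nat.pow_log_le_self 2 hj
  have h2 : (j : ℝ) ≤ (2 ^ (Nat.log 2 j + 1) : ℕ) := by
    exact_mod_cast (Nat.lt_pow_succ_log_self one_lt_two j).le
  push_cast at h1 h2
  set t : ℝ := 2 * π * (j : ℤ) / 2 ^ (Nat.log 2 j + 2) with ht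
  have hp : (0 : ℝ) < 2 ^ Nat.log 2 j := by positivity
  have h3 : Real.cos t ≤ 0 := by
    refine Real.cos_nonpos_of_pi_div_two_le_of_le ?_ ?_
    · rw [ht, le_div_iff₀ (by positivity)]; push_cast; rw [pow_add]; nlinarith [Real.pi_pos]
    · rw [ht, div_le_iff₀ (by positivity)]; push_cast; rw [pow_add] at *; nlinarith [Real.pi_pos]
  rw [E, ← ht, norm_eq_sqrt_sq_add_sq, mul_comm]
  refine Real.le_sqrt_of_sq_le ?_
  simp only [sub_re, sub_im, exp_ofReal_mul_I_re, exp_ofReal_mul_I_im, one_re, one_im]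
  nlinarith [Real.sin_sq_add_cos_sq t]

/-- The Banach space `c_0(ℂ²)`, isomorphic to `c_0`. -/
abbrev C := C₀(ℕ, ℂ × ℂ)

lemma tend (z : C) : Tendsto z atTop (𝓝 0) := by
  simpa [Nat.cofinite_eq_atTop] using zero_at_infty z

/-- The element of `c_0` given by a sequence tending to zero. -/
def mk (f : ℕ → ℂ × ℂ) (h : Tendsto f atTop (𝓝 0)) : C :=
  ⟨⟨f, continuous_of_discreteTopology⟩, by rwa [cocompact_eq_cofinite, Nat.cofinite_eq_atTop]⟩

lemma ap_le (x : C) (n : ℕ) : ‖x n‖ ≤ ‖x‖ := x.toBCF.norm_coe_le_norm n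

lemma norm_le (x : C) (M : ℝ) (h : ∀ n, ‖x n‖ ≤ M) : ‖x‖ ≤ M :=
  (BoundedContinuousFunction.norm_le (f := x.toBCF) ((norm_nonneg _).trans (h 0))).2 h

lemma dense : Dense {z : C | ∃ n, ∀ k ≥ n, z k = 0} := fun z => by
  refine Metric.mem_closure_iff.2 fun ε hε => ?_
  obtain ⟨n, hn⟩ := eventually_atTop.1 ((tend z).norm.eventually
    (gt_mem_nhds (by simpa using half_pos hε : ‖(0 : ℂ × ℂ)‖ < ε / 2)))
  refine ⟨mk (fun k => if k < n then z k else 0) (tendsto_const_nhds.congr' ?_),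
    ⟨n, fun k hk => if_neg (not_lt.2 hk)⟩, ?_⟩
  · filter_upwards [eventually_ge_atTop n] with k hk using (if_neg (not_lt.2 hk)).symm
  · rw [dist_eq_norm]
    refine (norm_le _ (ε / 2) fun k => ?_).trans_lt (half_lt_self hε)
    show ‖z k - if k < n then z k else 0‖ ≤ _
    split_ifs with h
    · simpa using (half_pos hε).le
    · simpa using (hn k (not_lt.1 h)).le

lemma separable : TopologicalSpace.SeparableSpace C := by
  let ι : (n : ℕ) → (Fin n → ℂ × ℂ) →ₗ[ℂ] C := fun n =>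
    { toFun := fun v => mk (fun k => if h : k < n then v ⟨k, h⟩ else 0)
        (tendsto_const_nhds.congr' (by
          filter_upwards [eventually_ge_atTop n] with k hk using by simp [not_lt.2 hk]))
      map_add' := fun y z => by ext1 k; by_cases h : k < n <;> simp [mk, h]
      map_smul' := fun c z => by ext1 k; by_cases h : k < n <;> simp [mk, h] }
  refine dense.isSeparable_iff.1 ((TopologicalSpace.isSeparable_iUnion.2 fun n =>
    TopologicalSpace.isSeparable_range (ι n).continuous_of_finiteDimensional).mono ?_)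
  rintro z ⟨n, hn⟩
  refine mem_iUnion.2 ⟨n, fun k => z k, ?_⟩
  ext1 k
  by_cases h : k < n
  · simp [ι, mk, h]
  · simp [ι, mk, h, hn k (not_lt.1 h)]

/-- The conditions on the weights. -/
structure Weight (c : ℕ → ℝ) : Prop where
  one_le : ∀ k, 1 ≤ c k
  step : ∀ k d, c (k + d) ≤ c k + d
  zero : c 0 = 1
  tend : Tendsto c atTop atTop

section Op

variable {c : ℕ → ℝ} (hc : Weight c) (𝕜 : Type) [NontriviallyNormedField 𝕜] [NormedAlgebra 𝕜 ℂ]

include hc in
lemma Weight.le (k : ℕ) : c k ≤ 2 ^ k := by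
  have h1 := hc.step 0 k
  rw [zero_add, hc.zero] at h1
  have h2 : (1 : ℝ) + k ≤ 2 ^ k := by
    have h3 : k + 1 ≤ 2 ^ k := Nat.lt_two_pow_self
    have h4 : ((k + 1 : ℕ) : ℝ) ≤ ((2 ^ k : ℕ) : ℝ) := by exact_mod_cast h3
    push_cast at h4
    linarith
  exact h1.trans h2

include hc in
lemma bd0 (j : ℤ) (k : ℕ) : ‖(c k : ℂ) * (E j k - 1)‖ ≤ 2 * π * |(j : ℝ)| := by
  have hk : 0 ≤ c k := by linarith [hc.one_le k]
  rw [norm_mul, norm_real, Real.norm_of_nonneg hk]
  calc c k * ‖E j k - 1‖ ≤ 2 ^ k * (2 * π * |(j : ℝ)| / 2 ^ k) :=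
        mul_le_mul (hc.le k) (E_sub j k) (norm_nonneg _) (by positivity)
    _ = 2 * π * |(j : ℝ)| := by field_simp

lemma bd1 {B : ℝ} {j : ℤ} {k : ℕ} (h : ‖(c k : ℂ) * (E j k - 1)‖ ≤ B) (p : ℂ × ℂ) :
    ‖(p.1 + c k * (E j k - 1) * p.2, E j k * p.2)‖ ≤ (1 + B) * ‖p‖ := by
  have h1 := norm_fst_le p
  have h2 := norm_snd_le p
  have hB : 0 ≤ B := (norm_nonneg _).trans h
  have h3 : 0 ≤ B * ‖p‖ := by positivity
  refine norm_prod_le_iff.2 ⟨(norm_add_le _ _).trans ?_, ?_⟩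
  · rw [norm_mul]
    nlinarith [mul_le_mul h h2 (norm_nonneg _) hB]
  · rw [norm_mul, E_norm]; linarith

/-- The operator `T ^ j` (`j` an integer). -/
noncomputable def T (j : ℤ) : C →L[𝕜] C :=
  LinearMap.mkContinuous
    { toFun := fun z => mk (fun k => ((z k).1 + c k * (E j k - 1) * (z k).2, E j k * (z k).2))
        (squeeze_zero_norm (fun k => bd1 (bd0 hc j k) _)
          (by simpa using (tend z).norm.const_mul _))
      map_add' := fun y z => by ext k <;> simp [mk] <;> ring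
      map_smul' := fun c z => by ext k <;> simp [mk] }
    (1 + 2 * π * |(j : ℝ)|) fun z => norm_le _ _ fun k =>
      (bd1 (bd0 hc j k) _).trans (mul_le_mul_of_nonneg_left (ap_le z k) (by positivity))

lemma T_ap (j : ℤ) (z : C) (k : ℕ) :
    T hc 𝕜 j z k = ((z k).1 + c k * (E j k - 1) * (z k).2, E j k * (z k).2) := rfl

lemma T_mul (i j : ℤ) : T hc 𝕜 i * T hc 𝕜 j = T hc 𝕜 (i + j) := by
  ext z k <;> simp [T_ap, E_add] <;> ring

lemma T_zero : T hc 𝕜 0 = 1 := by
  ext z k <;> simp [T_ap, E_zero]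

lemma T_pow (i : ℤ) (n : ℕ) : T hc 𝕜 i ^ n = T hc 𝕜 (n * i) := by
  induction n with
  | zero => simp [T_zero]
  | succ n ih =>
    rw [pow_succ, ih, T_mul]
    congr 1
    push_cast
    ring

lemma mem_Omega (m : ℕ) : T hc 𝕜 (-m) ∈ Omega (T hc 𝕜 1) := by
  have h0 : ∀ n, m < 2 ^ (n + m) := fun n =>
    Nat.lt_two_pow_self.trans_le (Nat.pow_le_pow_right two_pos (by omega))
  refine ⟨fun n => 2 ^ (n + m) - m, strictMono_nat_of_lt_succ fun n => ?_,
    fun n => Nat.sub_pos_of_lt (h0 n), _, dense, ?_⟩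
  · have := h0 n
    rw [show n + 1 + m = n + m + 1 by ring, pow_succ]; omega
  rintro z ⟨N, hN⟩
  refine tendsto_const_nhds.congr' ?_
  filter_upwards [eventually_ge_atTop N] with n hn
  ext1 k
  rw [T_pow, T_ap, T_ap, mul_one]
  rcases le_or_gt N k with h | h
  · simp [hN k h]
  · rw [Nat.cast_sub (h0 n).le, sub_eq_add_neg ((2 ^ (n + m) : ℕ) : ℤ), E_add]
    push_cast
    rw [E_pow (by omega), one_mul]

lemma quasiRigid : QuasiRigid (T hc 𝕜 1) := by
  obtain ⟨ω, h1, h2, D, h3, h4⟩ := mem_Omega hc 𝕜 0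
  refine ⟨ω, h1, h2, D, h3, fun x hx => ?_⟩
  have h5 := h4 x hx
  rwa [Nat.cast_zero, neg_zero, T_zero] at h5

/-- The vector `x` with `x_k = (0, 1 / c_k)`. -/
noncomputable def vx : C := mk (fun k => (0, ((c k)⁻¹ : ℝ)))
  (tendsto_const_nhds.prodMk_nhds (by
    have h1 : Tendsto (fun k => (((c k)⁻¹ : ℝ) : ℂ)) atTop (𝓝 ((0 : ℝ) : ℂ)) :=
      (continuous_ofReal.tendsto 0).comp hc.tend.inv_tendsto_atTop
    rwa [ofReal_zero] at h1))

lemma vx_ap (k : ℕ) : vx hc k = (0, ((c k : ℂ))⁻¹) := by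
  rw [← ofReal_inv]
  rfl

lemma cont_ap (k : ℕ) : Continuous fun z : C => z k :=
  (LipschitzWith.of_dist_le_mul (K := 1) fun y z => by
    simpa [dist_eq_norm] using ap_le (y - z) k).continuous

/-- The main step. -/
theorem far (y : C) : ∃ M : ℕ, ∀ m ≥ M,
    T hc 𝕜 (-m) (vx hc) ∉ closure (range fun n : ℕ => T hc 𝕜 n y) := by
  have hc0 : ∀ k, (c k : ℂ) ≠ 0 := fun k => by
    have := hc.one_le k
    exact_mod_cast (by linarith : c k ≠ 0)
  by_cases inv : ∀ k, (y k).1 - c k * (y k).2 = -1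
  · obtain ⟨K, hK⟩ := eventually_atTop.1 ((tend y).norm.eventually
      (gt_mem_nhds (by simp : ‖(0 : ℂ × ℂ)‖ < 1 / 5)))
    refine ⟨2 ^ K, fun m hm hcl => ?_⟩
    obtain ⟨_, ⟨n, rfl⟩, hn⟩ := Metric.mem_closure_iff.1 hcl 1 one_pos
    have hj : n + m ≠ 0 := by
      have : 0 < 2 ^ K := by positivity
      omega
    have h1 := E_far hj
    set k := Nat.log 2 (n + m) + 2
    have hk : K ≤ k := (Nat.le_log_of_pow_le one_lt_two (by omega)).trans (Nat.le_add_right _ _)
    have h2 := (norm_fst_le _).trans_lt (hK k hk)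
    rw [dist_eq_norm'] at hn
    have h3 := ((norm_fst_le _).trans (ap_le _ k)).trans_lt hn
    have h4 : E (n + m : ℕ) k - 1 = E (m : ℕ) k *
        ((T hc 𝕜 n y - T hc 𝕜 (-m) (vx hc)) k).1 - E (n + m : ℕ) k * (y k).1 := by
      have e1 : E (m : ℕ) k * E (-(m : ℕ)) k = 1 := by rw [← E_add]; simp [E_zero]
      have e3 : E (n + m : ℕ) k = E (n : ℕ) k * E (m : ℕ) k := by
        rw [← E_add]; congr 1
      have e2 : (c k : ℂ) * (c k : ℂ)⁻¹ = 1 := mul_inv_cancel₀ (hc0 k)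
      simp only [ZeroAtInftyContinuousMap.sub_apply, T_ap, vx_ap, Prod.fst_sub, e3]
      linear_combination (E (m : ℕ) k * (E (n : ℕ) k - 1)) * inv k + e1 +
        E (m : ℕ) k * (E (-(m : ℕ)) k - 1) * e2
    rw [h4] at h1
    have h5 := h1.trans (norm_sub_le _ _)
    rw [norm_mul, norm_mul, E_norm, E_norm] at h5
    linarith
  · push Not at inv
    obtain ⟨k, hk⟩ := inv
    refine ⟨0, fun m _ hcl => hk ?_⟩
    have h1 : IsClosed {z : C | (z k).1 - c k * (z k).2 = (y k).1 - c k * (y k).2} := isClosed_eq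
      ((cont_ap k).fst.sub (continuous_const.mul (cont_ap k).snd)) continuous_const
    have h2 := h1.closure_subset_iff.2 (by
      rintro _ ⟨n, rfl⟩; simp only [mem_ofPred_eq, T_ap]; ring) hcl
    simp only [mem_ofPred_eq, T_ap, vx_ap] at h2
    have e2 : (c k : ℂ) * (c k : ℂ)⁻¹ = 1 := mul_inv_cancel₀ (hc0 k)
    linear_combination -h2 - e2

/-- The growth of the powers. -/
theorem growth {G : ℕ → ℝ} (hG : Monotone G) (hG1 : ∀ k, 1 ≤ G k) (h : ∀ k, c k ≤ G k)
    (n : ℕ) : ‖T hc 𝕜 n‖ ≤ 1 + 8 * π * G (Nat.log 2 n) := by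
  have hπ := Real.pi_gt_three
  set l := Nat.log 2 n with hl
  have h1 : (n : ℝ) ≤ 2 ^ (l + 1) := by
    exact_mod_cast (Nat.lt_pow_succ_log_self one_lt_two n).le
  have hGl := hG1 l
  have key : ∀ k, ‖(c k : ℂ) * (E n k - 1)‖ ≤ 8 * π * G l := by
    intro k
    have hk : 0 ≤ c k := by linarith [hc.one_le k]
    rw [norm_mul, norm_real, Real.norm_of_nonneg hk]
    rcases le_total k l with h2 | h2
    · have h3 : c k ≤ G l := (h k).trans (hG h2)
      have h4 := E_sub' n k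
      nlinarith [norm_nonneg (E n k - 1)]
    · obtain ⟨d, rfl⟩ := Nat.exists_eq_add_of_le h2
      have h3 : c (l + d) ≤ G l * 2 ^ d := by
        have h4 := hc.step l d
        have h5 : (1 : ℝ) + d ≤ 2 ^ d := by
          have h6 : d + 1 ≤ 2 ^ d := Nat.lt_two_pow_self
          have h7 : ((d + 1 : ℕ) : ℝ) ≤ ((2 ^ d : ℕ) : ℝ) := by exact_mod_cast h6
          push_cast at h7
          linarith
        have h8 := h l
        have h9 : (0 : ℝ) ≤ d := Nat.cast_nonneg d
        nlinarith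
      have h4 : ‖E n (l + d) - 1‖ ≤ 2 * π * 2 ^ (l + 1) / 2 ^ (l + d) := by
        refine (E_sub n (l + d)).trans ?_
        have h5 : |((n : ℤ) : ℝ)| = n := by
          rw [Int.cast_natCast]
          exact abs_of_nonneg (Nat.cast_nonneg n)
        rw [h5]
        gcongr
      calc c (l + d) * ‖E n (l + d) - 1‖
          ≤ (G l * 2 ^ d) * (2 * π * 2 ^ (l + 1) / 2 ^ (l + d)) :=
            mul_le_mul h3 h4 (norm_nonneg _) (by positivity)
        _ = 4 * π * G l := by
            rw [pow_add, pow_add]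
            field_simp
            ring
        _ ≤ 8 * π * G l := by nlinarith
  refine ContinuousLinearMap.opNorm_le_bound _ (by positivity) fun z => norm_le _ _ fun k => ?_
  exact (bd1 (key k) _).trans (mul_le_mul_of_nonneg_left (ap_le z k) (by positivity))

end Op

section Weights

/-- The greatest nondecreasing function below `w`. -/
noncomputable def low (w : ℕ → ℝ) (n : ℕ) : ℝ := sInf (w '' Ici n)

variable {w : ℕ → ℝ} (hw : Tendsto w atTop atTop)

include hw in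
lemma bddBelow (n : ℕ) : BddBelow (w '' Ici n) := by
  obtain ⟨N, hN⟩ := eventually_atTop.mp (hw.eventually_ge_atTop 0)
  obtain ⟨b, hb⟩ := ((finite_Iio N).image w).bddBelow
  refine ⟨min b 0, ?_⟩
  rintro _ ⟨m, -, rfl⟩
  rcases lt_or_ge m N with h | h
  · exact (min_le_left _ _).trans (hb ⟨m, h, rfl⟩)
  · exact (min_le_right _ _).trans (hN m h)

include hw in
lemma low_le (n m : ℕ) (h : n ≤ m) : low w n ≤ w m := csInf_le (bddBelow hw n) ⟨m, h, rfl⟩

include hw in
lemma low_mono : Monotone (low w) := fun n m h =>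
  csInf_le_csInf (bddBelow hw n) ⟨w m, m, mem_Ici.mpr le_rfl, rfl⟩ (image_mono (Ici_subset_Ici.mpr h))

include hw in
lemma low_tendsto : Tendsto (low w) atTop atTop := by
  rw [tendsto_atTop]
  intro b
  obtain ⟨N, hN⟩ := eventually_atTop.mp (hw.eventually_ge_atTop b)
  filter_upwards [eventually_ge_atTop N] with n hn
  refine le_csInf ⟨w n, n, mem_Ici.mpr le_rfl, rfl⟩ ?_
  rintro _ ⟨m, hm, rfl⟩
  exact hN m (hn.trans hm)

/-- The weights. -/
noncomputable def cw (G : ℕ → ℝ) : ℕ → ℝ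
  | 0 => 1
  | k + 1 => min (cw G k + 1) (G (k + 1))

lemma cw_weight {G : ℕ → ℝ} (hG1 : ∀ k, 1 ≤ G k) (hG : Tendsto G atTop atTop) : Weight (cw G) where
  one_le k := by
    induction k with
    | zero => exact le_rfl
    | succ k ih => exact le_min (by linarith) (hG1 _)
  step k d := by
    induction d with
    | zero => simp
    | succ d ih =>
      have h1 : cw G (k + (d + 1)) ≤ cw G (k + d) + 1 := min_le_left _ _
      push_cast
      linarith
  zero := rfl
  tend := by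
    rw [tendsto_atTop]
    intro b
    obtain ⟨B, hB⟩ := exists_nat_ge b
    obtain ⟨K, hK⟩ := eventually_atTop.mp (hG.eventually_ge_atTop (B : ℝ))
    have h1 : ∀ d : ℕ, min (B : ℝ) d ≤ cw G (K + d) := by
      intro d
      induction d with
      | zero =>
        refine (min_le_right _ _).trans ?_
        rw [Nat.cast_zero, add_zero]
        cases K with
        | zero => exact zero_le_one
        | succ K =>
          have h2 : ∀ k, 0 ≤ cw G k := by
            intro k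
            induction k with
            | zero => exact zero_le_one
            | succ k ih => exact le_min (by linarith) (by linarith [hG1 (k + 1)])
          exact h2 _
      | succ d ih =>
        have h0 : cw G (K + (d + 1)) = min (cw G (K + d) + 1) (G (K + d + 1)) := rfl
        rw [h0]
        refine le_min ?_ ((min_le_left _ _).trans (hK _ (by omega)))
        push_cast
        rcases le_total (B : ℝ) d with h | h
        · rw [min_eq_left h] at ih
          exact (min_le_left _ _).trans (by linarith)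
        · rw [min_eq_right h] at ih
          exact (min_le_right _ _).trans (by linarith)
    filter_upwards [eventually_ge_atTop (K + B)] with n hn
    obtain ⟨e, rfl⟩ := Nat.exists_eq_add_of_le hn
    have h2 := h1 (B + e)
    rw [min_eq_left (by push_cast; linarith [(Nat.cast_nonneg e : (0 : ℝ) ≤ e)]), ← add_assoc] at h2
    exact hB.trans h2

lemma cw_le {G : ℕ → ℝ} (hG1 : ∀ k, 1 ≤ G k) (k : ℕ) : cw G k ≤ G k := by
  cases k with
  | zero => exact hG1 0
  | succ k => exact min_le_right _ _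

end Weights

/-- The operator for the growth function `w`. -/
theorem exists_op (𝕜 : Type) [NontriviallyNormedField 𝕜] [NormedAlgebra 𝕜 ℂ] {w : ℕ → ℝ}
    (hw : Tendsto w atTop atTop) :
    ∃ T S : C →L[𝕜] C, T * S = 1 ∧ S * T = 1 ∧ QuasiRigid T ∧ (∀ᶠ n in atTop, ‖T ^ n‖ ≤ w n) ∧
      (∀ m : ℕ, S ^ m ∈ Omega T) ∧ ∀ Λ : C →L[𝕜] C, ∃ M : ℕ, ∀ m ≥ M,
        S ^ m ∉ SOTClosure {R | ∃ n : ℕ, R = T ^ n * Λ} := by
  have hπ := Real.pi_gt_three
  let G : ℕ → ℝ := fun l => max 1 ((low w (2 ^ l) - 1) / (8 * π))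
  have hG1 : ∀ k, 1 ≤ G k := fun k => le_max_left _ _
  have hGm : Monotone G := fun a b h => max_le_max le_rfl (by
    have h1 := low_mono hw (Nat.pow_le_pow_right two_pos h)
    gcongr)
  have hGt : Tendsto G atTop atTop := by
    refine tendsto_atTop_mono (fun k => le_max_right _ _) ?_
    refine Tendsto.atTop_div_const (by positivity) ?_
    exact tendsto_atTop_add_const_right _ _
      ((low_tendsto hw).comp (tendsto_pow_atTop_atTop_of_one_lt one_lt_two))
  have hc := cw_weight hG1 hGt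
  refine ⟨T hc 𝕜 1, T hc 𝕜 (-1), ?_, ?_, quasiRigid hc 𝕜, ?_, fun m => ?_, fun Λ => ?_⟩
  · rw [T_mul, add_neg_cancel, T_zero]
  · rw [T_mul, neg_add_cancel, T_zero]
  · have h1 : Tendsto (fun n => Nat.log 2 n) atTop atTop := by
      refine tendsto_atTop.mpr fun b => ?_
      filter_upwards [eventually_ge_atTop (2 ^ b)] with n hn
      exact Nat.le_log_of_pow_le one_lt_two hn
    have h2 : Tendsto (fun n => (low w (2 ^ Nat.log 2 n) - 1) / (8 * π)) atTop atTop := by
      refine Tendsto.atTop_div_const (by positivity) ?_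
      exact tendsto_atTop_add_const_right _ _
        ((low_tendsto hw).comp ((tendsto_pow_atTop_atTop_of_one_lt one_lt_two).comp h1))
    filter_upwards [h2.eventually_ge_atTop 1, eventually_ge_atTop 1] with n hn hn1
    have h3 := growth hc 𝕜 hGm hG1 (cw_le hG1) n
    have h4 : G (Nat.log 2 n) = (low w (2 ^ Nat.log 2 n) - 1) / (8 * π) := max_eq_right hn
    have h5 := low_le hw (2 ^ Nat.log 2 n) n (Nat.pow_log_le_self 2 (by omega))
    rw [T_pow, mul_one]
    refine h3.trans ?_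
    rw [h4]
    have h6 : 8 * π * ((low w (2 ^ Nat.log 2 n) - 1) / (8 * π)) = low w (2 ^ Nat.log 2 n) - 1 := by
      field_simp
    rw [h6]
    linarith
  · rw [T_pow]
    have h := mem_Omega hc 𝕜 m
    rwa [mul_neg, mul_one]
  · obtain ⟨M, hM⟩ := far hc 𝕜 (Λ (vx hc))
    refine ⟨M, fun m hm hcl => hM m hm ?_⟩
    have h1 : (T hc 𝕜 (-1) ^ m : C →L[𝕜] C) (vx hc) = T hc 𝕜 (-m) (vx hc) := by
      rw [T_pow, mul_neg, mul_one]
    rw [← h1]
    refine map_mem_closure (f := fun g : C → C => g (vx hc)) (continuous_apply _) hcl ?_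
    rintro _ ⟨_, ⟨n, rfl⟩, rfl⟩
    refine ⟨n, ?_⟩
    change _ = (T hc 𝕜 1 ^ n : C →L[𝕜] C) (Λ (vx hc))
    rw [T_pow, mul_one]

end Pool.Agent.KS6_91.LM
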